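import Pool.Agent.H970_Mobius.Count

/-!
# Polynomial relations between `π` and `e ^ α` for algebraic `α`

Let `t` be a transcendental number, for example `t = π`.

(1) Let `exc t m n` be the set of all nonzero algebraic numbers `α` for which `P (t, e ^ α) = 0` for
some nonzero polynomial `P` with algebraic coefficients, of degree at most `m` in the first and at
most `n` in the second variable. It has at most `2 N` elements, `N` the number of pairs of coprime
integers `(u, v)` with `1 ≤ u ≤ m` and `1 ≤ v ≤ n`. If `α` is any other nonzero algebraic number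
then all numbers `R (t, e ^ α)` are transcendental, `R = P / Q` a nonconstant quotient of such
polynomials.

(2) The bound `2 N` is attained for `t = e`, for all `m` and `n`.

(3) For at most one nonzero algebraic number `α` the numbers `1`, `e ^ α`, `t` are linearly
dependent over the algebraic numbers.

(4) There is a number `α₀` such that the four numbers `π + e ^ α`, `π - e ^ α`, `π e ^ α`,
`π / e ^ α` are transcendental for all nonzero algebraic `α` with `α ≠ α₀`, `α ≠ -α₀`.

In the problem `α = 1`: if one of `π + e`, `π - e`, `π e`, `π / e` is algebraic, then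
`π + e ^ α`, `π - e ^ α`, `π e ^ α`, `π / e ^ α` are transcendental for all algebraic `α` other than
`0`, `1`, `-1`.

Proof. By the Lindemann-Weierstrass theorem the exponents `α` with `e ^ α` algebraic over `ℚ(t)` are
commensurable. Let `k` be the field of algebraic numbers and `h(y) = [k(t, y) : k(y)] / [k(t, y) : k(t)]`.
If `y ^ u = z ^ v` then `u h(y) = v h(z)`, since `[k(y) : k(y ^ u)] = u`. So `h (e ^ α)`, a quotient
of an integer `≤ m` and an integer `≤ n`, determines `α` up to the sign.
-/

set_option autoImplicit false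

namespace Pool.Agent.Results.MP_a2f59b_nt.ExponentialsAndPi

open Pool.Agent.H970_Mobius

/-- the value at `(t, y)` of the polynomial with the coefficients `p` -/
noncomputable def val {m n : ℕ} (t y : ℂ) (p : Fin (m + 1) × Fin (n + 1) → algebraicClosure ℚ ℂ) :
    ℂ := ∑ i, (p i : ℂ) * (t ^ (i.1 : ℕ) * y ^ (i.2 : ℕ))

theorem val_zero {m n : ℕ} {t y : ℂ} (h : ¬ PolyRel (algebraicClosure ℚ ℂ) m n t y)
    (p : Fin (m + 1) × Fin (n + 1) → algebraicClosure ℚ ℂ) (hp : val t y p = 0) : p = 0 := by
  unfold PolyRel at h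
  rw [not_not] at h
  funext i
  refine Fintype.linearIndependent_iff.1 h p ?_ i
  rw [← hp]
  rfl

theorem val_transc {m n : ℕ} {t y : ℂ} (h : ¬ PolyRel (algebraicClosure ℚ ℂ) m n t y)
    (p q : Fin (m + 1) × Fin (n + 1) → algebraicClosure ℚ ℂ) (hq : q ≠ 0)
    (hpq : ∀ c : algebraicClosure ℚ ℂ, p ≠ c • q) : Transcendental ℚ (val t y p / val t y q) := by
  intro ha
  have hq0 : val t y q ≠ 0 := fun h0 => hq (val_zero h q h0)
  have hmem : val t y p / val t y q ∈ algebraicClosure ℚ ℂ := mem_algebraicClosure_iff.2 ha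
  obtain ⟨c, hc⟩ : ∃ c : algebraicClosure ℚ ℂ, (c : ℂ) = val t y p / val t y q :=
    ⟨⟨_, hmem⟩, rfl⟩
  apply hpq c
  rw [← sub_eq_zero]
  apply val_zero h
  have h1 : val t y (p - c • q) = val t y p - c * val t y q := by
    unfold val
    rw [Finset.mul_sum, ← Finset.sum_sub_distrib]
    refine Finset.sum_congr rfl fun i _ => ?_
    simp only [Pi.sub_apply, Pi.smul_apply, smul_eq_mul]
    push_cast
    ring
  rw [h1, hc]
  field_simp
  ring

theorem rel_of_lin {t y : ℂ} (h : ¬ LinearIndependent (algebraicClosure ℚ ℂ) ![1, y, t]) :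
    PolyRel (algebraicClosure ℚ ℂ) 1 1 t y := by
  intro hl
  apply h
  have h1 := hl.comp (![(0, 0), (0, 1), (1, 0)] : Fin 3 → Fin 2 × Fin 2) (by decide)
  have h2 : (![1, y, t] : Fin 3 → ℂ) =
      (fun p : Fin (1 + 1) × Fin (1 + 1) => t ^ (p.1 : ℕ) * y ^ (p.2 : ℕ)) ∘
        (![(0, 0), (0, 1), (1, 0)] : Fin 3 → Fin 2 × Fin 2) := by
    funext i
    fin_cases i <;> simp
  rw [h2]
  exact h1

theorem lin_unique {t : ℂ} (ht : Transcendental ℚ t) {α β : ℂ} (hα : IsAlgebraic ℚ α)
    (hβ : IsAlgebraic ℚ β) (hα0 : α ≠ 0) (hβ0 : β ≠ 0)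
    (h : ¬ LinearIndependent (algebraicClosure ℚ ℂ) ![1, Complex.exp α, t])
    (h' : ¬ LinearIndependent (algebraicClosure ℚ ℂ) ![1, Complex.exp β, t]) : α = β := by
  have m1 : α ∈ exc t 1 1 := ⟨hα, hα0, rel_of_lin h⟩
  have m2 : β ∈ exc t 1 1 := ⟨hβ, hβ0, rel_of_lin h'⟩
  have one : ∀ p ∈ coprimePairs 1 1, p = (1, 1) := by decide
  have hq : quo t α = quo t β := by
    rw [one _ (quo_mem ht m1), one _ (quo_mem ht m2)]
  rcases quo_fiber ht m1 m2 hq with e | e
  · exact e
  · exfalso
    have tα := transc_QB (transc_exp hα hα0)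
    have tβ := transc_QB (transc_exp hβ hβ0)
    have tt := transc_QB ht
    -- a dependence relation has nonzero coefficients
    have coeffs : ∀ y : ℂ, Transcendental QB y →
        ¬ LinearIndependent (algebraicClosure ℚ ℂ) ![1, y, t] →
        ∃ a b c : QB, b ≠ 0 ∧ c ≠ 0 ∧ (a : ℂ) + b * y + c * t = 0 := by
      intro y hy hd
      obtain ⟨g, hg, i, hi⟩ := Fintype.not_linearIndependent_iff.1 hd
      rw [Fin.sum_univ_three] at hg
      have hg' : (g 0 : ℂ) + g 1 * y + g 2 * t = 0 := by
        have e0 : g 0 • (![1, y, t] : Fin 3 → ℂ) 0 = (g 0 : ℂ) := by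
          simp [Algebra.smul_def]
        have e1 : g 1 • (![1, y, t] : Fin 3 → ℂ) 1 = (g 1 : ℂ) * y := by
          simp [Algebra.smul_def]
        have e2 : g 2 • (![1, y, t] : Fin 3 → ℂ) 2 = (g 2 : ℂ) * t := by
          simp [Algebra.smul_def]
        rw [e0, e1, e2] at hg
        exact hg
      have lin : ∀ (x : ℂ) (a b : QB), Transcendental QB x → (a : ℂ) + b * x = 0 → b = 0 := by
        intro x a b hx hab
        have h1 : Polynomial.aeval x (Polynomial.C a + Polynomial.C b * Polynomial.X) = 0 := by
          rw [map_add, map_mul, Polynomial.aeval_C, Polynomial.aeval_C, Polynomial.aeval_X]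
          exact hab
        have h2 := (transcendental_iff.1 hx) _ h1
        have h3 := congrArg (fun p => Polynomial.coeff p 1) h2
        simpa using h3
      refine ⟨g 0, g 1, g 2, ?_, ?_, hg'⟩
      · intro h1
        rw [h1] at hg'
        have h2 : (g 0 : ℂ) + g 2 * t = 0 := by
          rw [← hg']
          push_cast
          ring
        have h3 : g 2 = 0 := lin t _ _ tt h2
        rw [h3] at h2
        have h4 : g 0 = 0 := by
          have : (g 0 : ℂ) = 0 := by simpa using h2
          exact_mod_cast this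
        fin_cases i
        · exact hi h4
        · exact hi h1
        · exact hi h3
      · intro h1
        rw [h1] at hg'
        have h2 : (g 0 : ℂ) + g 1 * y = 0 := by
          rw [← hg']
          push_cast
          ring
        have h3 : g 1 = 0 := lin y _ _ hy h2
        rw [h3] at h2
        have h4 : g 0 = 0 := by
          have : (g 0 : ℂ) = 0 := by simpa using h2
          exact_mod_cast this
        fin_cases i
        · exact hi h4
        · exact hi h3
        · exact hi h1
    obtain ⟨a, b, c, hb, hc, r1⟩ := coeffs _ tα h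
    obtain ⟨a', b', c', hb', hc', r2⟩ := coeffs _ tβ h'
    have hprod : Complex.exp α * Complex.exp β = 1 := by
      rw [← Complex.exp_add, e, neg_add_cancel, Complex.exp_zero]
    have h1 : Polynomial.aeval t (Polynomial.C (a * a' - b * b') +
        Polynomial.C (a * c' + a' * c) * Polynomial.X +
        Polynomial.C (c * c') * Polynomial.X ^ 2) = 0 := by
      rw [map_add, map_add, map_mul, map_mul, Polynomial.aeval_C, Polynomial.aeval_C,
        Polynomial.aeval_C, map_pow, Polynomial.aeval_X]
      have s1 : ((a : ℂ) + c * t) = -(b * Complex.exp α) := by linear_combination r1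
      have s2 : ((a' : ℂ) + c' * t) = -(b' * Complex.exp β) := by linear_combination r2
      have s3 : ((a : ℂ) + c * t) * ((a' : ℂ) + c' * t) = b * b' := by
        rw [s1, s2]
        linear_combination (b : ℂ) * b' * hprod
      simp only [map_sub, map_mul, map_add]
      have k : ∀ x : QB, algebraMap QB ℂ x = (x : ℂ) := fun _ => rfl
      simp only [k]
      linear_combination s3
    have h2 := (transcendental_iff.1 tt) _ h1
    have h3 := congrArg (fun p => Polynomial.coeff p 2) h2
    simp only [Polynomial.coeff_add, Polynomial.coeff_C_mul, Polynomial.coeff_X_pow,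
      Polynomial.coeff_zero, Polynomial.coeff_C, Polynomial.coeff_X] at h3
    norm_num at h3
    rcases h3 with h3 | h3
    · exact hc h3
    · exact hc' h3

theorem transc_pi : Transcendental ℚ (Real.pi : ℂ) := by
  intro h
  have hI : IsAlgebraic ℚ Complex.I := by
    refine ⟨Polynomial.X ^ 2 + 1, ?_, by simp⟩
    intro h0
    have := congrArg (fun p => Polynomial.coeff p 2) h0
    simp [Polynomial.coeff_one] at this
  have h1 : Complex.exp (Real.pi * Complex.I) = -1 := Complex.exp_pi_mul_I
  have h2 : (Real.pi * Complex.I : ℂ) ≠ 0 := by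
    refine mul_ne_zero ?_ Complex.I_ne_zero
    exact_mod_cast Real.pi_ne_zero
  have h3 := transc_exp (h.mul hI) h2
  rw [h1] at h3
  exact h3 isAlgebraic_one.neg

theorem result :
    -- (1) the number of exceptional exponents, and the values of rational functions for the others
    (∀ t : ℂ, Transcendental ℚ t → ∀ m n : ℕ,
      (exc t m n).Finite ∧ (exc t m n).ncard ≤ 2 * (coprimePairs m n).card ∧
      ∀ α : ℂ, IsAlgebraic ℚ α → α ≠ 0 → α ∉ exc t m n →
        ∀ p q : Fin (m + 1) × Fin (n + 1) → algebraicClosure ℚ ℂ, q ≠ 0 → (∀ c : algebraicClosure ℚ ℂ, p ≠ c • q) →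
          Transcendental ℚ (val t (Complex.exp α) p / val t (Complex.exp α) q)) ∧
    -- (2) the bound is attained for `t = e`
    (∀ m n : ℕ, (exc (Complex.exp 1) m n).ncard = 2 * (coprimePairs m n).card) ∧
    -- (3) linear relations
    (∀ t : ℂ, Transcendental ℚ t → ∀ α β : ℂ, IsAlgebraic ℚ α → IsAlgebraic ℚ β → α ≠ 0 →
      β ≠ 0 → ¬ LinearIndependent (algebraicClosure ℚ ℂ) ![1, Complex.exp α, t] →
      ¬ LinearIndependent (algebraicClosure ℚ ℂ) ![1, Complex.exp β, t] → α = β) ∧
    -- (4) the four numbers
    (∃ α₀ : ℂ, ∀ α : ℂ, IsAlgebraic ℚ α → α ≠ 0 → α ≠ α₀ → α ≠ -α₀ →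
      Transcendental ℚ (Real.pi + Complex.exp α) ∧ Transcendental ℚ (Real.pi - Complex.exp α) ∧
      Transcendental ℚ (Real.pi * Complex.exp α) ∧ Transcendental ℚ (Real.pi / Complex.exp α)) := by
  refine ⟨?_, exc_e, ?_, ?_⟩
  · intro t ht m n
    refine ⟨(exc_bound ht m n).1, (exc_bound ht m n).2, ?_⟩
    intro α hα h0 hn p q hq hpq
    have h1 : ¬ PolyRel (algebraicClosure ℚ ℂ) m n t (Complex.exp α) := fun h => hn ⟨hα, h0, h⟩
    exact val_transc h1 p q hq hpq
  · intro t ht α β hα hβ hα0 hβ0 h h'
    exact lin_unique ht hα hβ hα0 hβ0 h h'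
  · have one : ∀ p ∈ coprimePairs 1 1, p = (1, 1) := by decide
    obtain ⟨α₀, h0⟩ : ∃ α₀ : ℂ, ∀ α ∈ exc (Real.pi : ℂ) 1 1, α = α₀ ∨ α = -α₀ := by
      by_cases hne : (exc (Real.pi : ℂ) 1 1).Nonempty
      · obtain ⟨α₀, h0⟩ := hne
        refine ⟨α₀, fun α hα => quo_fiber transc_pi hα h0 ?_⟩
        rw [one _ (quo_mem transc_pi hα), one _ (quo_mem transc_pi h0)]
      · exact ⟨0, fun α hα => absurd ⟨α, hα⟩ hne⟩
    refine ⟨α₀, fun α hα hα0 h1 h2 => ?_⟩
    have h3 : ¬ PolyRel (algebraicClosure ℚ ℂ) 1 1 (Real.pi : ℂ) (Complex.exp α) := by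
      intro h
      rcases h0 α ⟨hα, hα0, h⟩ with h4 | h4
      · exact h1 h4
      · exact h2 h4
    have key := fun (p q : Fin 2 × Fin 2 → algebraicClosure ℚ ℂ) (hq : q ≠ 0)
      (hpq : ∀ c : algebraicClosure ℚ ℂ, p ≠ c • q) => val_transc (m := 1) (n := 1) h3 p q hq hpq
    have v : ∀ p : Fin 2 × Fin 2 → algebraicClosure ℚ ℂ,
        val (m := 1) (n := 1) (Real.pi : ℂ) (Complex.exp α) p =
          p (0, 0) + p (0, 1) * Complex.exp α + p (1, 0) * Real.pi +
            p (1, 1) * (Real.pi * Complex.exp α) := by
      intro p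
      unfold val
      rw [Fintype.sum_prod_type, Fin.sum_univ_two, Fin.sum_univ_two, Fin.sum_univ_two]
      simp
      ring
    have one_ne : (fun i : Fin 2 × Fin 2 => if i = (0, 0) then (1 : algebraicClosure ℚ ℂ) else 0)
        ≠ 0 := by
      intro h
      have := congrFun h (0, 0)
      simp at this
    refine ⟨?_, ?_, ?_, ?_⟩
    · have k := key (fun i => if i = (1, 0) then 1 else if i = (0, 1) then 1 else 0)
        (fun i => if i = (0, 0) then 1 else 0) one_ne (by
          intro c h
          have := congrFun h (1, 0)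
          simp at this)
      rw [v, v] at k
      simpa [add_comm] using k
    · have k := key (fun i => if i = (1, 0) then 1 else if i = (0, 1) then -1 else 0)
        (fun i => if i = (0, 0) then 1 else 0) one_ne (by
          intro c h
          have := congrFun h (1, 0)
          simp at this)
      rw [v, v] at k
      simp at k
      convert k using 1
      ring
    · have k := key (fun i => if i = (1, 1) then 1 else 0)
        (fun i => if i = (0, 0) then 1 else 0) one_ne (by
          intro c h
          have := congrFun h (1, 1)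
          simp at this)
      rw [v, v] at k
      simpa using k
    · have k := key (fun i => if i = (1, 0) then 1 else 0)
        (fun i => if i = (0, 1) then 1 else 0) (by
          intro h
          have := congrFun h (0, 1)
          simp at this) (by
          intro c h
          have := congrFun h (1, 0)
          simp at this)
      rw [v, v] at k
      simpa using k

end Pool.Agent.Results.MP_a2f59b_nt.ExponentialsAndPi
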