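import Pool.Agent.Helper305_BW.Square

/-!
# The family `e ^ (-x² / (1 + c x))`; `e ^ (π²)` and `π + e`, `π - e`, `π e`, `π / e`

Let `x ≠ 0` be a complex number such that `e ^ x` is algebraic, for instance `x = i π`. For rational
`c` let `E(c) = e ^ (-x² / (1 + c x))`. For `x = i π` this is `E(c) = e ^ (π² / (1 + i c π))` and
`E(0) = e ^ (π²)`; for `x = log 2` the number `E(0)` is `2 ^ (-log 2)`.

(1) For different rational `c`, `c'` the number `E(c)` is transcendental or `E(c')` is transcendental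
over `ℚ(x)`. In particular at most one of the numbers `E(c)` is algebraic, and if `E(c)` is algebraic,
then all the other numbers `E(c')` are transcendental over `ℚ(x)`.

(2) At most two of the numbers `E(c)` are algebraic over `ℚ(x)`.

(3) If `e` is algebraic over `ℚ(x)`, then all `E(c)` are transcendental, and at most one of them is
algebraic over `ℚ(x)`.

(4) The case `x = i π`: if one of the numbers `π + e`, `π - e`, `π e`, `π / e` is algebraic, then all the
numbers `e ^ (π² / (1 + i c π))` are transcendental, and at most one of them is algebraic over `ℚ(π)`.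
So for each `y` among these four numbers at most one of the numbers `y` and `e ^ (π² / (1 + i c π))`,
`c` rational, is algebraic; `e ^ (π²)` is the case `c = 0`.

The proof uses the theorem of Brownawell and Waldschmidt (`Pool.Agent.W252.bw`) and Gel'fond's theorem
(`Pool.Agent.W252.gelG32`) of the starting files. Put `V(c) = -x² / (1 + c x)`. Then
`V(c) V(c') / x = (V(c') - V(c)) / (c' - c)` and `V(c) / x = - x - c V(c)`. One considers the pairs
`x, V(c)` and `1, V(c') / x` for (1), the triple `x, V(c'), V(c'')` and the pair `1, V(c) / x` for (2),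
and the same with `1 / x` in place of `V(c) / x` for (3).
-/

set_option autoImplicit false

namespace Pool.Agent.Results.MP_a2f59b_nt.FamilyThroughExpPiSquare

open Complex Pool.Agent.Helper305_BW

/-- the number `E(c) = e ^ (-x² / (1 + c x))` -/
noncomputable def E (x : ℂ) (c : ℚ) : ℂ := exp (-x ^ 2 / (1 + c * x))

/-- the number `e ^ (π² / (1 + i c π))` -/
noncomputable def F (c : ℚ) : ℂ := exp ((Real.pi : ℂ) ^ 2 / (1 + Complex.I * c * (Real.pi : ℂ)))

/-- `z` is algebraic over the field `ℚ(θ)` -/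
def AlgebraicOver (θ z : ℂ) : Prop := IsAlgebraic (IntermediateField.adjoin ℚ {θ}) z

theorem pi_tr : Transcendental ℚ (Real.pi : ℂ) := Pool.Agent.H340R2.LW.transcendental_pi_complex

theorem algI : IsAlgebraic ℚ Complex.I := Pool.Agent.H340R2.LW.isAlgebraic_I

theorem x_tr : Transcendental ℚ ((Real.pi : ℂ) * Complex.I) := by
  intro h
  have h1 := h.mul algI.neg
  have e : ((Real.pi : ℂ) * Complex.I) * (-Complex.I) = (Real.pi : ℂ) := by
    linear_combination (-(Real.pi : ℂ)) * Complex.I_sq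
  rw [e] at h1
  exact pi_tr h1

theorem x_al : AlgOver (Real.pi : ℂ) ((Real.pi : ℂ) * Complex.I) :=
  AlgOver.self.mul (AlgOver.of_alg algI)

theorem F_eq (c : ℚ) : F c = exp (V ((Real.pi : ℂ) * Complex.I) c) := by
  unfold F V
  congr 1
  have h1 : (Real.pi : ℂ) ^ 2 = -((Real.pi : ℂ) * Complex.I) ^ 2 := by
    linear_combination ((Real.pi : ℂ) ^ 2) * Complex.I_sq
  have h2 : (1 : ℂ) + Complex.I * c * (Real.pi : ℂ) = 1 + c * ((Real.pi : ℂ) * Complex.I) := by
    ring
  rw [h2, ← h1]

theorem exp_x_alg : IsAlgebraic ℚ (exp ((Real.pi : ℂ) * Complex.I)) := by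
  rw [Complex.exp_pi_mul_I]; exact isAlgebraic_one.neg

/-- one of the four numbers is algebraic: then `e` is algebraic over `ℚ(π)` -/
theorem e_al {y : ℝ} (hy : y = Real.pi + Real.exp 1 ∨ y = Real.pi - Real.exp 1 ∨
    y = Real.pi * Real.exp 1 ∨ y = Real.pi / Real.exp 1) (h : IsAlgebraic ℚ y) :
    AlgOver (Real.pi : ℂ) (exp 1) := by
  have hyC : AlgOver (Real.pi : ℂ) ((y : ℝ) : ℂ) := AlgOver.of_alg (h.algebraMap (A := ℂ))
  have hpi : AlgOver (Real.pi : ℂ) (Real.pi : ℂ) := AlgOver.self
  have hneg : ∀ z : ℂ, AlgOver (Real.pi : ℂ) z → AlgOver (Real.pi : ℂ) (-z) := fun z hz => by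
    have := (AlgOver.rat (θ := (Real.pi : ℂ)) (-1)).mul hz
    have e : (((-1 : ℚ) : ℂ)) * z = -z := by push_cast; ring
    rwa [e] at this
  have hpi0 : (Real.pi : ℂ) ≠ 0 := by exact_mod_cast Real.pi_ne_zero
  have he0 : exp 1 ≠ 0 := Complex.exp_ne_zero _
  have hexp : ((Real.exp 1 : ℝ) : ℂ) = exp 1 := by simp
  rcases hy with hy | hy | hy | hy
  · have e : exp 1 = (y : ℂ) + -(Real.pi : ℂ) := by rw [hy, ← hexp]; push_cast; ring
    rw [e]; exact hyC.add (hneg _ hpi)
  · have e : exp 1 = (Real.pi : ℂ) + -(y : ℂ) := by rw [hy, ← hexp]; push_cast; ring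
    rw [e]; exact hpi.add (hneg _ hyC)
  · have e : exp 1 = (y : ℂ) / (Real.pi : ℂ) := by
      rw [hy, ← hexp]; push_cast; field_simp
    rw [e]; exact hyC.div hpi
  · have e : exp 1 = (Real.pi : ℂ) / (y : ℂ) := by
      rw [hy, ← hexp]; push_cast; field_simp
    rw [e]; exact hpi.div hyC

/-- **Main result.** See the text at the beginning of the file. -/
theorem result :
    (∀ x : ℂ, x ≠ 0 → IsAlgebraic ℚ (exp x) →
      -- (1) at most one algebraic member
      (∀ c c' : ℚ, c ≠ c' → Transcendental ℚ (E x c) ∨ ¬ AlgebraicOver x (E x c')) ∧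
      -- (2) at most two members algebraic over `ℚ(x)`
      (∀ c c' c'' : ℚ, c ≠ c' → c ≠ c'' → c' ≠ c'' →
        ¬ (AlgebraicOver x (E x c) ∧ AlgebraicOver x (E x c') ∧ AlgebraicOver x (E x c''))) ∧
      -- (3) if `e` is algebraic over `ℚ(x)`
      (AlgebraicOver x (exp 1) → (∀ c : ℚ, Transcendental ℚ (E x c)) ∧
        ∀ c c' : ℚ, c ≠ c' → ¬ (AlgebraicOver x (E x c) ∧ AlgebraicOver x (E x c')))) ∧
    -- (4) the case `x = i π`
    (F 0 = ((Real.exp (Real.pi ^ 2) : ℝ) : ℂ) ∧
      (∀ c c' : ℚ, c ≠ c' → Transcendental ℚ (F c) ∨ ¬ AlgebraicOver (Real.pi : ℂ) (F c')) ∧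
      ∀ y : ℝ, (y = Real.pi + Real.exp 1 ∨ y = Real.pi - Real.exp 1 ∨
          y = Real.pi * Real.exp 1 ∨ y = Real.pi / Real.exp 1) → IsAlgebraic ℚ y →
        (∀ c : ℚ, Transcendental ℚ (F c)) ∧
        ∀ c c' : ℚ, c ≠ c' →
          ¬ (AlgebraicOver (Real.pi : ℂ) (F c) ∧ AlgebraicOver (Real.pi : ℂ) (F c'))) := by
  refine ⟨?_, ?_, ?_, ?_⟩
  · intro x hx0 hex
    have hx : Transcendental ℚ x := fun h => exp_tr h hx0 hex
    refine ⟨?_, ?_, ?_⟩
    · intro c c' h
      by_contra hcon
      push Not at hcon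
      obtain ⟨h1, h2⟩ := hcon
      exact sq_one hx hx AlgOver.self hex h (not_not.1 h1) h2
    · intro c c' c'' h h' h'' hh
      exact sq_two hx hx AlgOver.self hex h h' h'' hh.1 hh.2.1 hh.2.2
    · intro he
      exact ⟨fun c hc => sq_three hx hx AlgOver.self hex he hc,
        fun c c' h hh => sq_four hx hx AlgOver.self hex he h hh.1 hh.2⟩
  · unfold F
    push_cast
    congr 1
    simp
  · intro c c' h
    by_contra hcon
    push Not at hcon
    obtain ⟨h1, h2⟩ := hcon
    have h1' := not_not.1 h1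
    rw [F_eq] at h1' h2
    exact sq_one pi_tr x_tr x_al exp_x_alg h h1' h2
  · intro y hy hyal
    have he := e_al hy hyal
    refine ⟨fun c hc => ?_, fun c c' h hh => ?_⟩
    · rw [F_eq] at hc
      exact sq_three pi_tr x_tr x_al exp_x_alg he hc
    · rw [F_eq, F_eq] at hh
      exact sq_four pi_tr x_tr x_al exp_x_alg he h hh.1 hh.2

end Pool.Agent.Results.MP_a2f59b_nt.FamilyThroughExpPiSquare
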