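import Mathlib
import Pool.Agent.Helper927_jm.Fam

set_option autoImplicit false

/-!
# `π + e`, `π - e`, `π e`, `π / e` and tails of the Gaussian integral: a joint measure

For `x > 0` let `G(x)` be the integral of `exp (-a² - b²)` over the square `a² < x`, `b² < x` of the
plane; the integral over the whole plane is `π`, so that `π - G(x)` is the integral over the rest of the
plane.

Let `t` be a real number different from `0`, `e` and `-e`, for example `t = π`.  Let `u_0`, `u_1` be two
different ones of the four numbers `t + e`, `t - e`, `t e`, `t / e`, and let `u_2, …, u_(m+1)` be the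
numbers `t - G(x_j)` for different positive rational numbers `x_j`.  For every `D` and every index `i`
there are `κ` and `c > 0` such that for all `H` and all nonzero polynomials `P` (in one variable) and `Q`
(in `m + 1` variables) with integer coefficients, of total degree at most `D` and with coefficients of
absolute value at most `H`
`max (|P(u_i)|, |Q(u_k : k ≠ i)|) ≥ c H^(-κ)`.

For `t = π` this says that at every scale `H` at most one of the numbers `π + e`, `π - e`, `π e`, `π / e`
and `π - G(x)` has a very good approximation by an algebraic number of bounded degree and of height at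
most `H`, and if one of them has, then any other of the first four numbers together with all the
`π - G(x)` is quantitatively algebraically independent at this scale.  In particular, if one of the first
four numbers is algebraic, then any other of them and the `π - G(x)` are algebraically independent, with
a measure of polynomial type.

Proof.  `G(x) = x (2 - E(x))²` with the value `E(x)` of an E-function, and all the numbers are values at
`t / e` of polynomials over the ring generated by `e` and the `G(x_j)`, for which a measure of algebraic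
independence is known (`Pool.Agent.Helper116_EM`).  The number `t / e` is eliminated by a resultant.  The
polynomials `P(u_i)` and `Q(u_k)` have no common zero, except for a possible zero of `P` at `0` or `± 1`,
which belongs to `t = 0` or `t = ± e` and is removed before.
-/

namespace Pool.Agent.Results.MP_a2f59b_nt.FourNumbersAndTails

open MeasureTheory

/-- the names of the four numbers -/
inductive Name : Type
  | plus : Name
  | minus : Name
  | product : Name
  | quotient : Name

/-- the four numbers `t + e`, `t - e`, `t e`, `t / e` -/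
noncomputable def four (t : ℝ) : Name → ℝ
  | Name.plus => t + Real.exp 1
  | Name.minus => t - Real.exp 1
  | Name.product => t * Real.exp 1
  | Name.quotient => t / Real.exp 1

/-- the Gaussian integral over a square -/
noncomputable def G (x : ℝ) : ℝ :=
  ∫ p in {p : ℝ × ℝ | p.1 ^ 2 < x ∧ p.2 ^ 2 < x}, Real.exp (-(p.1 ^ 2 + p.2 ^ 2))

/-- the numbers `u_0, …, u_(m+1)` -/
noncomputable def number (t : ℝ) (s s' : Name) {m : ℕ} (x : Fin m → ℚ) : Fin (m + 2) → ℝ :=
  Fin.cons (four t s) (Fin.cons (four t s') (fun j => t - G (x j)))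

open Pool.Agent.Helper116_EM Pool.Agent.Helper927_jm

/-- internal names -/
def nm : Name → Four
  | Name.plus => Four.plus
  | Name.minus => Four.minus
  | Name.product => Four.prod
  | Name.quotient => Four.quot

theorem nm_inj {s s' : Name} (h : nm s = nm s') : s = s' := by
  rcases s <;> rcases s' <;> first | rfl | (exact absurd h (by simp [nm]))

theorem G_eq {x : ℝ} (hx : 0 < x) : G x = x * (2 - Pool.Agent.R352.T.EA (1 / 2) 1 x) ^ 2 := by
  set s : ℝ := Real.sqrt x with hs
  have hs0 : 0 < s := Real.sqrt_pos.2 hx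
  have hs2 : s ^ 2 = x := Real.sq_sqrt hx.le
  have hfun : (fun p : ℝ × ℝ => Real.exp (-(p.1 ^ 2 + p.2 ^ 2))) =
      fun p : ℝ × ℝ => Real.exp (-p.1 ^ 2) * Real.exp (-p.2 ^ 2) := by
    funext p
    rw [← Real.exp_add]; congr 1; ring
  have hset : {p : ℝ × ℝ | p.1 ^ 2 < x ∧ p.2 ^ 2 < x} = (Set.Ioo (-s) s ×ˢ Set.Ioo (-s) s) := by
    ext p
    have key : ∀ t : ℝ, t ∈ Set.Ioo (-s) s ↔ t ^ 2 < x := by
      intro t
      rw [← hs2, Set.mem_Ioo, ← abs_lt, sq_lt_sq, abs_of_pos hs0]
    rw [Set.mem_prod, key, key]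
    exact Iff.rfl
  rw [G, hset, hfun, Measure.volume_eq_prod,
    setIntegral_prod_mul (fun t : ℝ => Real.exp (-t ^ 2)) (fun t : ℝ => Real.exp (-t ^ 2)),
    ← integral_Ioc_eq_integral_Ioo, ← intervalIntegral.integral_of_le (by linarith), gauss_eq, hs2]
  rw [← hs2]
  ring

theorem value (t : ℝ) (s : Name) :
    c4 ((Real.exp 1 : ℝ) : ℂ) (((t / Real.exp 1 : ℝ)) : ℂ) (nm s) = ((four t s : ℝ) : ℂ) := by
  have he : Real.exp 1 ≠ 0 := (Real.exp_pos 1).ne'
  rcases s
  · show ((Real.exp 1 : ℝ) : ℂ) * ((((t / Real.exp 1 : ℝ)) : ℂ) + 1) = ((t + Real.exp 1 : ℝ) : ℂ)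
    have : t + Real.exp 1 = Real.exp 1 * (t / Real.exp 1 + 1) := by field_simp
    rw [this]; push_cast; ring
  · show ((Real.exp 1 : ℝ) : ℂ) * ((((t / Real.exp 1 : ℝ)) : ℂ) - 1) = ((t - Real.exp 1 : ℝ) : ℂ)
    have : t - Real.exp 1 = Real.exp 1 * (t / Real.exp 1 - 1) := by field_simp
    rw [this]; push_cast; ring
  · show (((t / Real.exp 1 : ℝ)) : ℂ) * ((Real.exp 1 : ℝ) : ℂ) ^ 2 = ((t * Real.exp 1 : ℝ) : ℂ)
    have : t * Real.exp 1 = t / Real.exp 1 * Real.exp 1 ^ 2 := by field_simp
    rw [this]; push_cast; ring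
  · rfl

theorem four_ne (t : ℝ) (h0 : t ≠ 0) (h1 : t ≠ Real.exp 1) (h2 : t ≠ -Real.exp 1) (s s' : Name) :
    four t s ≠ ((exc (nm s) (nm s') : ℤ) : ℝ) := by
  have he : Real.exp 1 ≠ 0 := (Real.exp_pos 1).ne'
  have hp : t + Real.exp 1 ≠ 0 := fun h => h2 (by linarith)
  have hm : t - Real.exp 1 ≠ 0 := fun h => h1 (by linarith)
  have hr : t * Real.exp 1 ≠ 0 := mul_ne_zero h0 he
  have hq : t / Real.exp 1 ≠ 0 := div_ne_zero h0 he
  have hq1 : t / Real.exp 1 ≠ 1 := fun h => h1 ((div_eq_one_iff_eq he).1 h)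
  have hq2 : t / Real.exp 1 ≠ -1 := fun h => h2 (by
    rw [div_eq_iff he] at h
    linarith)
  rcases s <;> rcases s' <;> simp only [four, nm, exc, Int.cast_zero, Int.cast_one, Int.cast_neg] <;> assumption

theorem result (t : ℝ) (h0 : t ≠ 0) (h1 : t ≠ Real.exp 1) (h2 : t ≠ -Real.exp 1) (s s' : Name) (hs : s ≠ s')
    (m D : ℕ) (x : Fin m → ℚ) (hx : ∀ j, 0 < x j) (hinj : Function.Injective x) (i : Fin (m + 2)) :
    ∃ (κ : ℕ) (c : ℝ), 0 < c ∧ ∀ (H : ℕ) (P : Polynomial ℤ) (Q : MvPolynomial (Fin (m + 1)) ℤ),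
      P ≠ 0 → P.natDegree ≤ D → (∀ k, |P.coeff k| ≤ (H : ℤ)) →
      Q ≠ 0 → Q.totalDegree ≤ D → (∀ k, |MvPolynomial.coeff k Q| ≤ (H : ℤ)) →
      c / (H : ℝ) ^ κ ≤ max |Polynomial.aeval (number t s s' x i) P|
        |MvPolynomial.aeval (fun j : Fin (m + 1) => number t s s' x (i.succAbove j)) Q| := by
  have hne : nm s ≠ nm s' := fun h => hs (nm_inj h)
  have hβ := bt_meas x hx hinj
  have hI : AlgebraicIndependent ℚ
      (Fin.cons ((bt x 0 : ℝ) : ℂ) (fun j => ((bt x j.succ : ℝ) : ℂ)) : Fin (m + 1) → ℂ) := by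
    have h3 := indepC_ofReal (bt_indep x hx hinj)
    convert h3 using 1
    funext k
    refine Fin.cases ?_ (fun j => ?_) k
    · rfl
    · rfl
  have hV : ∀ k, V (nm s) (nm s') ((bt x 0 : ℝ) : ℂ) (fun j => ((bt x j.succ : ℝ) : ℂ))
      (((t / Real.exp 1 : ℝ)) : ℂ) k = ((number t s s' x k : ℝ) : ℂ) := by
    intro k
    refine Fin.cases ?_ (fun k => Fin.cases ?_ (fun j => ?_) k) k
    · exact value t s
    · exact value t s'
    · show ((Real.exp 1 : ℝ) : ℂ) * (((t / Real.exp 1 : ℝ)) : ℂ) -
        (((x j : ℝ) * (2 - Pool.Agent.R352.T.EA (1 / 2) 1 (x j : ℝ)) ^ 2 : ℝ) : ℂ) = ((t - G (x j) : ℝ) : ℂ)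
      rw [G_eq (by exact_mod_cast hx j), ← Complex.ofReal_mul, ← Complex.ofReal_sub,
        mul_div_cancel₀ t (Real.exp_pos 1).ne']
  -- the exceptional value
  obtain ⟨b, hb, hb'⟩ : ∃ b : ℤ, |b| ≤ 1 ∧ number t s s' x i ≠ ((excI (m := m) (nm s) (nm s') b i : ℤ) : ℝ) := by
    refine Fin.cases ?_ (fun k => Fin.cases ?_ (fun j => ?_) k) i
    · exact ⟨0, by norm_num, four_ne t h0 h1 h2 s s'⟩
    · exact ⟨0, by norm_num, four_ne t h0 h1 h2 s' s⟩
    · by_cases hz : t - G (x j) = 0
      · refine ⟨1, by norm_num, ?_⟩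
        show t - G (x j) ≠ ((1 : ℤ) : ℝ)
        rw [hz]; norm_num
      · refine ⟨0, by norm_num, ?_⟩
        show t - G (x j) ≠ ((0 : ℤ) : ℝ)
        rw [Int.cast_zero]; exact hz
  obtain ⟨κ, c, hc, h⟩ := elim hβ (t / Real.exp 1) (U (nm s) (nm s') i) (fun j => U (nm s) (nm s') (i.succAbove j))
    (U_mem _ _ _) (U_len _ _ _) (fun j => U_mem _ _ _) (fun j => U_len _ _ _)
    (number t s s' x i) (by rw [eval_U]; exact hV i)
    (fun j => number t s s' x (i.succAbove j)) (fun j => by rw [eval_U]; exact hV _)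
    (excI (m := m) (nm s) (nm s') b i) (abs_excI _ _ b hb i) hb'
    (fun P hP => U_trans _ _ _ P hP)
    (fun α halg hα => by
      rw [eval_U] at halg hα
      have h4 := indepV (nm s) (nm s') hne _ _ hI α i halg b hα
      simpa only [eval_U] using h4) D
  refine ⟨κ, c, hc, fun H P Q hP hPD hPH hQ hQD hQH => ?_⟩
  have hH : 1 ≤ H := by
    by_contra h5
    have hH0 : H = 0 := by omega
    apply hP
    ext k
    have h6 := hPH k
    rw [hH0, Nat.cast_zero] at h6
    rw [Polynomial.coeff_zero]
    exact abs_eq_zero.1 (le_antisymm h6 (abs_nonneg _))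
  have hH' : (1 : ℝ) ≤ H := by exact_mod_cast hH
  have h7 := h P Q hP hQ hPD hQD H hH' (fun k => by exact_mod_cast hPH k) (fun k => by exact_mod_cast hQH k)
  rw [div_le_iff₀ (by positivity), mul_comm]
  exact h7

end Pool.Agent.Results.MP_a2f59b_nt.FourNumbersAndTails
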